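import Pool.Agent.Q161.ESM.Stm3

/-!
# Project ESM (helper161): job ADD, the characters are multiplicative in `φ`
-/

set_option autoImplicit false

namespace Pool.Agent.Q24.ESM

open Polynomial NumberField IsDedekindDomain Finset
open Pool.Agent.Q161.ESM

theorem ite_mul_id {k : Type} [Field k] (a b : ZMod 2) (x : k) :
    (if a + b ≠ 0 then x else 1) * (if a ≠ 0 ∧ b ≠ 0 then x else 1) ^ 2 =
      (if a ≠ 0 then x else 1) * (if b ≠ 0 then x else 1) := by
  have h : ∀ a : ZMod 2, a = 0 ∨ a = 1 := by decide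
  have h1 : (1 : ZMod 2) ≠ 0 := by decide
  have h2 : (1 : ZMod 2) + 1 = 0 := by decide
  rcases h a with rfl | rfl <;> rcases h b with rfl | rfl
  · simp
  · simp
  · simp
  · rw [h2, if_neg (by simp), if_pos ⟨h1, h1⟩, if_pos h1, one_mul, sq]

theorem add : S_ADD := by
  intro k V J _ _ _ l hl hl2 F c t hF hFt hc hc0 J' φ
  have hodd : 2 * ((l - 1) / 2) = l - 1 := by
    obtain ⟨m, hm⟩ := hl.odd_of_ne_two hl2
    omega
  have hl1 : 1 ≤ l := hl.one_lt.le
  -- stable sets
  have hstab : ∀ α β : V →+ ZMod 2, (∀ s, α (F s) = α s) → (∀ s, β (F s) = β s) →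
      (∏ s ∈ univ.filter (fun s => α (s - t) ≠ 0 ∧ β (s - t) ≠ 0), c s) ^ (l - 1) = 1 := by
    intro α β hα hβ
    set U := univ.filter (fun s => α (s - t) ≠ 0 ∧ β (s - t) ≠ 0) with hU
    have hne : ∏ s ∈ U, c s ≠ 0 := by
      rw [Finset.prod_ne_zero_iff]
      intro s hs
      refine hc0 s ?_
      rintro rfl
      rw [hU, Finset.mem_filter, sub_self, map_zero] at hs
      exact hs.2.1 rfl
    have hFs : ∀ (γ : V →+ ZMod 2), (∀ s, γ (F s) = γ s) → ∀ s, γ (F s - t) = γ (s - t) := by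
      intro γ hγ s
      have : F s - t = F (s - t) := by rw [map_sub, hFt]
      rw [this, hγ]
    have h1 : ∏ s ∈ U, c (F s) = ∏ s ∈ U, c s := by
      refine Finset.prod_bij (fun s _ => F s) ?_ ?_ ?_ ?_
      · intro s hs
        rw [hU, Finset.mem_filter] at hs ⊢
        refine ⟨Finset.mem_univ _, ?_, ?_⟩
        · rw [hFs α hα]; exact hs.2.1
        · rw [hFs β hβ]; exact hs.2.2
      · intro a _ b _ h
        exact hF.1 h
      · intro b hb
        obtain ⟨a, ha⟩ := hF.2 b
        refine ⟨a, ?_, ha⟩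
        rw [hU, Finset.mem_filter] at hb ⊢
        refine ⟨Finset.mem_univ _, ?_, ?_⟩
        · rw [← hFs α hα, ha]; exact hb.2.1
        · rw [← hFs β hβ, ha]; exact hb.2.2
      · intro s _
        rfl
    have h2 : (∏ s ∈ U, c s) ^ l = ∏ s ∈ U, c s := by
      rw [← Finset.prod_pow, ← h1]
      exact Finset.prod_congr rfl fun s _ => (hc s).symm
    have h3 : (∏ s ∈ U, c s) ^ (l - 1) * ∏ s ∈ U, c s = 1 * ∏ s ∈ U, c s := by
      rw [← pow_succ, Nat.sub_add_cancel hl1, h2, one_mul]
    exact mul_right_cancel₀ hne h3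
  have hmul : ∀ α β : V →+ ZMod 2, (∀ s, α (F s) = α s) → (∀ s, β (F s) = β s) →
      (∏ s ∈ univ.filter (fun s => α (s - t) ≠ 0), c s) ^ ((l - 1) / 2) = 1 →
      (∏ s ∈ univ.filter (fun s => β (s - t) ≠ 0), c s) ^ ((l - 1) / 2) = 1 →
      (∏ s ∈ univ.filter (fun s => (α + β) (s - t) ≠ 0), c s) ^ ((l - 1) / 2) = 1 := by
    intro α β hα hβ h1 h2
    have key : (∏ s ∈ univ.filter (fun s => (α + β) (s - t) ≠ 0), c s) *
        (∏ s ∈ univ.filter (fun s => α (s - t) ≠ 0 ∧ β (s - t) ≠ 0), c s) ^ 2 =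
        (∏ s ∈ univ.filter (fun s => α (s - t) ≠ 0), c s) *
        (∏ s ∈ univ.filter (fun s => β (s - t) ≠ 0), c s) := by
      rw [Finset.prod_filter, Finset.prod_filter, Finset.prod_filter, Finset.prod_filter,
        ← Finset.prod_pow, ← Finset.prod_mul_distrib, ← Finset.prod_mul_distrib]
      refine Finset.prod_congr rfl fun s _ => ?_
      exact ite_mul_id (α (s - t)) (β (s - t)) (c s)
    have h3 := congrArg (fun x => x ^ ((l - 1) / 2)) key
    simp only [mul_pow] at h3
    rw [h1, h2, one_mul, ← pow_mul, hodd, hstab α β hα hβ, mul_one] at h3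
    exact h3
  classical
  induction J' using Finset.induction_on with
  | empty =>
    intro _ _
    simp
  | insert j0 J1 hj0 ih =>
    intro hinv hone
    have h1 := ih (fun j hj => hinv j (Finset.mem_insert_of_mem hj))
      (fun j hj => hone j (Finset.mem_insert_of_mem hj))
    have h2 := hmul (φ j0) (∑ j ∈ J1, φ j) (hinv j0 (Finset.mem_insert_self _ _)) ?_
      (hone j0 (Finset.mem_insert_self _ _)) h1
    · rw [Finset.sum_insert hj0]
      exact h2
    · intro s
      rw [AddMonoidHom.finsetSum_apply, AddMonoidHom.finsetSum_apply]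
      exact Finset.sum_congr rfl fun j hj => hinv j (Finset.mem_insert_of_mem hj) s

end Pool.Agent.Q24.ESM
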