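import Pool.Agent.Q161.ESM.Stm1

/-!
# Project ESM (helper161): job SM (the sum over the sizes)
-/

set_option autoImplicit false

namespace Pool.Agent.Q24.ESM.SM

open Finset Pool.Agent.Q161.ESM

/-- `1 + x log 2` -/
noncomputable def vl (x : ℕ) : ℝ := 1 + (x : ℝ) * Real.log 2

/-- the factors -/
noncomputable def g (b : ℝ) (x y : ℕ) : ℝ := (vl x)⁻¹ * ((vl x / vl y) ^ b + (vl x) ^ (-b))

lemma l2pos : (0 : ℝ) < Real.log 2 := Real.log_pos (by norm_num)

lemma l2le : Real.log 2 ≤ 1 := by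
  have := Real.log_two_lt_d9
  linarith

lemma one_le_vl (x : ℕ) : 1 ≤ vl x := by
  unfold vl
  have := l2pos
  have : 0 ≤ (x : ℝ) * Real.log 2 := by positivity
  linarith

lemma vl_pos (x : ℕ) : 0 < vl x := lt_of_lt_of_le one_pos (one_le_vl x)

lemma vl_ge (x : ℕ) : Real.log 2 * ((x : ℝ) + 1) ≤ vl x := by
  unfold vl
  have := l2le
  nlinarith

lemma g_nonneg (b : ℝ) (x y : ℕ) : 0 ≤ g b x y := by
  unfold g
  have h1 := vl_pos x
  have h2 := vl_pos y
  positivity

lemma pow_sum (b : ℝ) (hb : 0 < b) (hb1 : b ≤ 1) (N : ℕ) :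
    ∑ W ∈ range N, ((W : ℝ) + 1) ^ (b - 1) ≤ (N : ℝ) ^ b / b := by
  induction N with
  | zero =>
    simp only [range_zero, sum_empty]
    positivity
  | succ N ih =>
    rw [sum_range_succ]
    have hN : (0 : ℝ) < (N : ℝ) + 1 := by positivity
    have h1 : (1 + (-1 / ((N : ℝ) + 1))) ^ b ≤ 1 + b * (-1 / ((N : ℝ) + 1)) := by
      refine rpow_one_add_le_one_add_mul_self ?_ hb.le hb1
      rw [le_div_iff₀ hN]
      have : (0 : ℝ) ≤ N := by positivity
      linarith
    have h2 : 1 + (-1 / ((N : ℝ) + 1)) = N / ((N : ℝ) + 1) := by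
      field_simp
      ring
    rw [h2, Real.div_rpow (by positivity) hN.le] at h1
    have h3 : (0 : ℝ) < ((N : ℝ) + 1) ^ b := Real.rpow_pos_of_pos hN b
    rw [div_le_iff₀ h3] at h1
    have h4 : ((N : ℝ) + 1) ^ (b - 1) = ((N : ℝ) + 1) ^ b / ((N : ℝ) + 1) := by
      rw [Real.rpow_sub hN, Real.rpow_one]
    have h5 : (N : ℝ) ^ b ≤ ((N : ℝ) + 1) ^ b - b * ((N : ℝ) + 1) ^ (b - 1) := by
      rw [h4]
      calc (N : ℝ) ^ b ≤ (1 + b * (-1 / ((N : ℝ) + 1))) * ((N : ℝ) + 1) ^ b := h1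
        _ = _ := by
          field_simp
          ring
    push_cast
    calc ∑ W ∈ range N, ((W : ℝ) + 1) ^ (b - 1) + ((N : ℝ) + 1) ^ (b - 1) ≤
          (N : ℝ) ^ b / b + ((N : ℝ) + 1) ^ (b - 1) := by linarith
      _ ≤ (((N : ℝ) + 1) ^ b - b * ((N : ℝ) + 1) ^ (b - 1)) / b + ((N : ℝ) + 1) ^ (b - 1) := by
          have := div_le_div_of_nonneg_right h5 hb.le
          linarith
      _ = ((N : ℝ) + 1) ^ b / b := by
          field_simp
          ring

lemma g_sum (b : ℝ) (hb : 0 < b) (hb1 : b ≤ 1) :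
    ∃ C : ℝ, 1 ≤ C ∧ ∀ R : ℕ, ∑ W ∈ range (R + 1), g b W R ≤ C := by
  obtain ⟨ℓ, hℓ⟩ : ∃ ℓ : ℝ, ℓ = Real.log 2 := ⟨_, rfl⟩
  have hℓ0 : 0 < ℓ := hℓ ▸ l2pos
  have hsum : Summable (fun W : ℕ => ((W : ℝ) + 1) ^ (-1 - b)) := by
    have h1 : Summable (fun n : ℕ => (n : ℝ) ^ (-1 - b)) := Real.summable_nat_rpow.2 (by linarith)
    have h2 := (summable_nat_add_iff 1).2 h1
    refine h2.congr fun n => ?_
    push_cast
    rfl
  obtain ⟨D, hD⟩ : ∃ D : ℝ, D = ∑' W : ℕ, ((W : ℝ) + 1) ^ (-1 - b) := ⟨_, rfl⟩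
  have hD0 : 0 ≤ D := by
    rw [hD]
    exact tsum_nonneg fun W => by positivity
  refine ⟨ℓ ^ (b - 1) / (ℓ ^ b * b) + ℓ ^ (-1 - b) * D + 1, ?_, ?_⟩
  · have : 0 ≤ ℓ ^ (b - 1) / (ℓ ^ b * b) := by positivity
    have : 0 ≤ ℓ ^ (-1 - b) * D := by positivity
    linarith
  intro R
  have hterm : ∀ W : ℕ, g b W R ≤ ℓ ^ (b - 1) * ((W : ℝ) + 1) ^ (b - 1) / (ℓ ^ b * ((R : ℝ) + 1) ^ b) +
      ℓ ^ (-1 - b) * ((W : ℝ) + 1) ^ (-1 - b) := by
    intro W
    have hW : (0 : ℝ) < (W : ℝ) + 1 := by positivity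
    have hR : (0 : ℝ) < (R : ℝ) + 1 := by positivity
    have h1 := vl_pos W
    have h2 := vl_pos R
    have h3 : ℓ * ((W : ℝ) + 1) ≤ vl W := hℓ ▸ vl_ge W
    have h4 : ℓ * ((R : ℝ) + 1) ≤ vl R := hℓ ▸ vl_ge R
    unfold g
    rw [mul_add]
    refine add_le_add ?_ ?_
    · rw [Real.div_rpow h1.le h2.le]
      have e1 : (vl W)⁻¹ * (vl W ^ b / vl R ^ b) = vl W ^ (b - 1) / vl R ^ b := by
        rw [Real.rpow_sub h1, Real.rpow_one]
        field_simp
      rw [e1]
      refine div_le_div₀ (by positivity) ?_ (by positivity) ?_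
      · rw [← Real.mul_rpow hℓ0.le hW.le]
        exact Real.rpow_le_rpow_of_nonpos (by positivity) h3 (by linarith)
      · rw [← Real.mul_rpow hℓ0.le hR.le]
        exact Real.rpow_le_rpow (by positivity) h4 hb.le
    · have e1 : (vl W)⁻¹ * vl W ^ (-b) = vl W ^ (-1 - b) := by
        rw [sub_eq_add_neg, Real.rpow_add h1, Real.rpow_neg_one]
      rw [e1, ← Real.mul_rpow hℓ0.le hW.le]
      exact Real.rpow_le_rpow_of_nonpos (by positivity) h3 (by linarith)
  calc ∑ W ∈ range (R + 1), g b W R ≤ ∑ W ∈ range (R + 1),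
        (ℓ ^ (b - 1) * ((W : ℝ) + 1) ^ (b - 1) / (ℓ ^ b * ((R : ℝ) + 1) ^ b) +
      ℓ ^ (-1 - b) * ((W : ℝ) + 1) ^ (-1 - b)) := sum_le_sum fun W _ => hterm W
    _ = ℓ ^ (b - 1) * (∑ W ∈ range (R + 1), ((W : ℝ) + 1) ^ (b - 1)) / (ℓ ^ b * ((R : ℝ) + 1) ^ b) +
        ℓ ^ (-1 - b) * ∑ W ∈ range (R + 1), ((W : ℝ) + 1) ^ (-1 - b) := by
        rw [sum_add_distrib, mul_sum, mul_sum, sum_div]
    _ ≤ ℓ ^ (b - 1) * (((R : ℝ) + 1) ^ b / b) / (ℓ ^ b * ((R : ℝ) + 1) ^ b) + ℓ ^ (-1 - b) * D := by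
        refine add_le_add ?_ ?_
        · refine div_le_div_of_nonneg_right ?_ (by positivity)
          refine mul_le_mul_of_nonneg_left ?_ (by positivity)
          have := pow_sum b hb hb1 (R + 1)
          push_cast at this
          exact this
        · refine mul_le_mul_of_nonneg_left ?_ (by positivity)
          rw [hD]
          exact hsum.sum_le_tsum _ fun W _ => by positivity
    _ = ℓ ^ (b - 1) / (ℓ ^ b * b) + ℓ ^ (-1 - b) * D := by
        have hR : (0 : ℝ) < ((R : ℝ) + 1) ^ b := Real.rpow_pos_of_pos (by positivity) b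
        have hl : (0 : ℝ) < ℓ ^ b := Real.rpow_pos_of_pos hℓ0 b
        congr 1
        field_simp
    _ ≤ _ := by linarith

/-- extension of a tuple by the constant `R` -/
def ex (R : ℕ) {n : ℕ} (w : Fin n → ℕ) (j : ℕ) : ℕ := if h : j < n then w ⟨j, h⟩ else R

/-- the product -/
noncomputable def P (b : ℝ) (R : ℕ) {n : ℕ} (w : Fin n → ℕ) : ℝ :=
  ∏ i ∈ range n, g b (ex R w i) (ex R w (i + 1))

lemma P_nonneg (b : ℝ) (R : ℕ) {n : ℕ} (w : Fin n → ℕ) : 0 ≤ P b R w :=
  prod_nonneg fun _ _ => g_nonneg _ _ _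

lemma P_succ (b : ℝ) (R : ℕ) {n : ℕ} (w : Fin (n + 1) → ℕ) :
    P b R w = P b (w (Fin.last n)) (Fin.init w) * g b (w (Fin.last n)) R := by
  unfold P
  rw [prod_range_succ]
  congr 1
  · refine prod_congr rfl fun i hi => ?_
    rw [mem_range] at hi
    have h1 : ex R w i = ex (w (Fin.last n)) (Fin.init w) i := by
      unfold ex
      rw [dif_pos (by omega), dif_pos hi]
      rfl
    have h2 : ex R w (i + 1) = ex (w (Fin.last n)) (Fin.init w) (i + 1) := by
      unfold ex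
      rw [dif_pos (by omega)]
      by_cases h3 : i + 1 < n
      · rw [dif_pos h3]
        rfl
      · rw [dif_neg h3]
        congr 1
        ext
        simp only [Fin.val_last]
        omega
    rw [h1, h2]
  · have h1 : ex R w n = w (Fin.last n) := by
      unfold ex
      rw [dif_pos (by omega)]
      rfl
    have h2 : ex R w (n + 1) = R := by
      unfold ex
      rw [dif_neg (by omega)]
    rw [h1, h2]

open Classical in
/-- monotone tuples with values at most `R` -/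
noncomputable def A (n R : ℕ) : Finset (Fin n → ℕ) :=
  (Fintype.piFinset (fun _ : Fin n => range (R + 1))).filter (fun w => Monotone w)

lemma mem_A {n R : ℕ} {w : Fin n → ℕ} : w ∈ A n R ↔ (∀ i, w i ≤ R) ∧ Monotone w := by
  unfold A
  rw [mem_filter, Fintype.mem_piFinset]
  simp only [mem_range, Nat.lt_succ_iff]

lemma mono_init {n : ℕ} {w : Fin (n + 1) → ℕ} (h : Monotone w) : Monotone (Fin.init w) :=
  fun _ _ hij => h (Fin.castSucc_le_castSucc_iff.2 hij)

lemma sum_A (b C : ℝ) (hC : 0 ≤ C) (hg : ∀ R : ℕ, ∑ W ∈ range (R + 1), g b W R ≤ C) (n : ℕ) :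
    ∀ R : ℕ, ∑ w ∈ A n R, P b R w ≤ C ^ n := by
  classical
  induction n with
  | zero =>
    intro R
    rw [pow_zero]
    have h1 : ∀ w : Fin 0 → ℕ, P b R w = 1 := fun w => by
      unfold P
      simp
    rw [sum_congr rfl fun w _ => h1 w, sum_const, nsmul_eq_mul, mul_one]
    have h2 : (A 0 R).card ≤ 1 := by
      rw [card_le_one]
      intro a _ b _
      exact Subsingleton.elim a b
    exact_mod_cast h2
  | succ n ih =>
    intro R
    have h1 : ∀ w ∈ A (n + 1) R, w (Fin.last n) ∈ range (R + 1) := by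
      intro w hw
      rw [mem_range, Nat.lt_succ_iff]
      exact (mem_A.1 hw).1 _
    rw [← sum_fiberwise_of_maps_to h1]
    have h2 : ∀ W ∈ range (R + 1), ∑ w ∈ (A (n + 1) R).filter (fun w => w (Fin.last n) = W), P b R w ≤
        C ^ n * g b W R := by
      intro W hW
      have h3 : ∀ w ∈ (A (n + 1) R).filter (fun w => w (Fin.last n) = W), P b R w =
          P b W (Fin.init w) * g b W R := by
        intro w hw
        rw [P_succ, (mem_filter.1 hw).2]
      rw [sum_congr rfl h3, ← sum_mul]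
      refine mul_le_mul_of_nonneg_right ?_ (g_nonneg _ _ _)
      refine le_trans ?_ (ih W)
      have hinj : ∀ w ∈ (A (n + 1) R).filter (fun w => w (Fin.last n) = W),
          ∀ w' ∈ (A (n + 1) R).filter (fun w => w (Fin.last n) = W), Fin.init w = Fin.init w' → w = w' := by
        intro w hw w' hw' he
        funext i
        refine Fin.lastCases ?_ (fun j => ?_) i
        · rw [(mem_filter.1 hw).2, (mem_filter.1 hw').2]
        · exact congrFun he j
      rw [← sum_image (f := fun u : Fin n → ℕ => P b W u) hinj]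
      refine sum_le_sum_of_subset_of_nonneg ?_ fun _ _ _ => P_nonneg _ _ _
      intro u hu
      obtain ⟨w, hw, rfl⟩ := mem_image.1 hu
      rw [mem_filter, mem_A] at hw
      rw [mem_A]
      refine ⟨fun i => ?_, mono_init hw.1.2⟩
      rw [← hw.2]
      exact hw.1.2 (Fin.le_last _)
    calc ∑ W ∈ range (R + 1), ∑ w ∈ (A (n + 1) R).filter (fun w => w (Fin.last n) = W), P b R w ≤
          ∑ W ∈ range (R + 1), C ^ n * g b W R := sum_le_sum h2
      _ = C ^ n * ∑ W ∈ range (R + 1), g b W R := by rw [mul_sum]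
      _ ≤ C ^ n * C := mul_le_mul_of_nonneg_left (hg R) (by positivity)
      _ = C ^ (n + 1) := by rw [pow_succ]

lemma Phi_eq (k : ℕ) (b : ℝ) (v : ℕ → ℝ) (hv : ∀ j, 0 < v j) (J : ℕ) (hJ : J + 1 ≤ k) :
    Phi k b v J = (∏ i ∈ range J, ((v i)⁻¹ * ((v i / v (i + 1)) ^ b + (v i) ^ (-b)))) *
      ((v J)⁻¹) ^ (k - 1 - J) := by
  induction J with
  | zero =>
    unfold Phi
    rw [range_zero, prod_empty, one_mul, Nat.sub_zero, Real.rpow_neg (hv 0).le]
    have h1 : ((k : ℝ) - 1) = ((k - 1 : ℕ) : ℝ) := by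
      rw [Nat.cast_sub (by omega)]
      push_cast
      ring
    rw [h1, Real.rpow_natCast, inv_pow]
  | succ J ih =>
    have h1 : Phi k b v (J + 1) = Phi k b v J * (v J / v (J + 1)) ^ (k - J - 2) *
      ((v J / v (J + 1)) ^ b + (v J) ^ (-b)) := rfl
    rw [h1, ih (by omega), prod_range_succ]
    have h2 : k - 1 - J = (k - J - 2) + 1 := by omega
    have h3 : k - 1 - (J + 1) = k - J - 2 := by omega
    rw [h2, h3]
    have h4 : ((v J)⁻¹) ^ (k - J - 2 + 1) * (v J / v (J + 1)) ^ (k - J - 2) =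
        (v J)⁻¹ * ((v (J + 1))⁻¹) ^ (k - J - 2) := by
      rw [pow_succ, mul_right_comm, ← mul_pow]
      have h5 : (v J)⁻¹ * (v J / v (J + 1)) = (v (J + 1))⁻¹ := by
        have := (hv J).ne'
        field_simp
      rw [h5, mul_comm]
    calc (∏ i ∈ range J, ((v i)⁻¹ * ((v i / v (i + 1)) ^ b + (v i) ^ (-b)))) * ((v J)⁻¹) ^ (k - J - 2 + 1) *
          (v J / v (J + 1)) ^ (k - J - 2) * ((v J / v (J + 1)) ^ b + (v J) ^ (-b))
        = (∏ i ∈ range J, ((v i)⁻¹ * ((v i / v (i + 1)) ^ b + (v i) ^ (-b)))) *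
          (((v J)⁻¹) ^ (k - J - 2 + 1) * (v J / v (J + 1)) ^ (k - J - 2)) *
          ((v J / v (J + 1)) ^ b + (v J) ^ (-b)) := by ring
      _ = _ := by
        rw [h4]
        ring

theorem sm : S_SM := by
  classical
  intro k m b hk hm hb hb1
  obtain ⟨C, hC1, hg⟩ := g_sum b hb hb1
  have hC : 0 ≤ C := by linarith
  obtain ⟨n, rfl⟩ : ∃ n, k = n + 1 := ⟨k - 1, by omega⟩
  obtain ⟨M, hM⟩ : ∃ M : ℕ, M = ∑ j, m j := ⟨_, rfl⟩
  have hM1 : 1 ≤ M := by
    rw [hM]
    exact (hm 0).trans (single_le_sum (f := m) (fun _ _ => Nat.zero_le _) (mem_univ 0))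
  have hM1r : (1 : ℝ) ≤ M := by exact_mod_cast hM1
  have hMb : (1 : ℝ) ≤ (M : ℝ) ^ b := Real.one_le_rpow hM1r hb.le
  refine ⟨((M : ℝ) ^ b) ^ n * C ^ n, by positivity, ?_⟩
  intro r
  obtain ⟨T, hT⟩ : ∃ T : Finset (Fin (n + 1) → ℕ), T = (Fintype.piFinset (fun _ : Fin (n + 1) => range (r + 1))).filter
        (fun w => Monotone w ∧ ∑ j, m j * w j = r) := ⟨_, rfl⟩
  rw [← hT]
  have hTm : ∀ w ∈ T, (∀ i, w i ≤ r) ∧ Monotone w ∧ ∑ j, m j * w j = r := by
    intro w hw
    rw [hT, mem_filter, Fintype.mem_piFinset] at hw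
    refine ⟨fun i => ?_, hw.2⟩
    have := mem_range.1 (hw.1 i)
    omega
  have hpt : ∀ w ∈ T, Phi (n + 1) b (fun j => if h : j < n + 1 then 1 + (w ⟨j, h⟩ : ℝ) * Real.log 2 else 1)
      (n + 1 - 1) ≤ ((M : ℝ) ^ b) ^ n * P b r (Fin.init w) := by
    intro w hw
    obtain ⟨hw1, hw2, hw3⟩ := hTm w hw
    obtain ⟨v, hv⟩ : ∃ v : ℕ → ℝ, v = (fun j => if h : j < n + 1 then 1 + (w ⟨j, h⟩ : ℝ) * Real.log 2 else 1) := ⟨_, rfl⟩
    rw [← hv]
    have hvj : ∀ (j : ℕ) (h : j < n + 1), v j = vl (w ⟨j, h⟩) := by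
      intro j h
      rw [hv]
      simp only [dif_pos h]
      rfl
    have hvpos : ∀ j, 0 < v j := by
      intro j
      by_cases h : j < n + 1
      · rw [hvj j h]
        exact vl_pos _
      · rw [hv]
        simp only [dif_neg h]
        exact one_pos
    have hlast : r ≤ M * w (Fin.last n) := by
      rw [← hw3, hM, sum_mul]
      exact sum_le_sum fun j _ => Nat.mul_le_mul_left _ (hw2 (Fin.le_last j))
    have hlr : vl r ≤ M * vl (w (Fin.last n)) := by
      unfold vl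
      have h1 : (r : ℝ) ≤ M * w (Fin.last n) := by exact_mod_cast hlast
      have := l2pos
      nlinarith
    rw [Phi_eq (n + 1) b v hvpos (n + 1 - 1) (by omega)]
    have e0 : n + 1 - 1 = n := rfl
    rw [e0, Nat.sub_self, pow_zero, mul_one]
    have e1 : ((M : ℝ) ^ b) ^ n * P b r (Fin.init w) =
        ∏ i ∈ range n, ((M : ℝ) ^ b * g b (ex r (Fin.init w) i) (ex r (Fin.init w) (i + 1))) := by
      unfold P
      rw [prod_mul_distrib, prod_const, card_range]
    rw [e1]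
    refine prod_le_prod (fun i hi => ?_) fun i hi => ?_
    · have h1 := hvpos i
      have h2 := hvpos (i + 1)
      positivity
    · rw [mem_range] at hi
      have h1 : ex r (Fin.init w) i = w ⟨i, by omega⟩ := by
        unfold ex
        rw [dif_pos hi]
        rfl
      have h2 : v i = vl (ex r (Fin.init w) i) := by
        rw [h1]
        exact hvj i (by omega)
      have h3 : vl (ex r (Fin.init w) (i + 1)) ≤ M * v (i + 1) := by
        by_cases h4 : i + 1 < n
        · have h5 : ex r (Fin.init w) (i + 1) = w ⟨i + 1, by omega⟩ := by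
            unfold ex
            rw [dif_pos h4]
            rfl
          rw [h5, hvj (i + 1) (by omega)]
          have := vl_pos (w ⟨i + 1, by omega⟩)
          nlinarith
        · have h5 : ex r (Fin.init w) (i + 1) = r := by
            unfold ex
            rw [dif_neg h4]
          have h6 : v (i + 1) = vl (w (Fin.last n)) := by
            rw [hvj (i + 1) (by omega)]
            congr 2
            ext
            simp only [Fin.val_last]
            omega
          rw [h5, h6]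
          exact hlr
      unfold g
      rw [← h2]
      obtain ⟨y, hy⟩ : ∃ y : ℝ, y = vl (ex r (Fin.init w) (i + 1)) := ⟨_, rfl⟩
      rw [← hy] at h3 ⊢
      have hy0 : 0 < y := by
        rw [hy]
        exact vl_pos _
      have hvi := hvpos i
      have hvi1 := hvpos (i + 1)
      have h7 : (v i / v (i + 1)) ^ b ≤ (M : ℝ) ^ b * (v i / y) ^ b := by
        rw [← Real.mul_rpow (by positivity) (by positivity)]
        refine Real.rpow_le_rpow (by positivity) ?_ hb.le
        rw [div_le_iff₀ hvi1]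
        calc v i = (v i / y) * y := by field_simp
          _ ≤ (v i / y) * (M * v (i + 1)) := mul_le_mul_of_nonneg_left h3 (by positivity)
          _ = _ := by ring
      have h8 : (v i) ^ (-b) ≤ (M : ℝ) ^ b * (v i) ^ (-b) := by
        have : 0 < (v i) ^ (-b) := Real.rpow_pos_of_pos hvi _
        nlinarith
      calc (v i)⁻¹ * ((v i / v (i + 1)) ^ b + (v i) ^ (-b)) ≤
            (v i)⁻¹ * ((M : ℝ) ^ b * (v i / y) ^ b + (M : ℝ) ^ b * (v i) ^ (-b)) :=
            mul_le_mul_of_nonneg_left (add_le_add h7 h8) (by positivity)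
        _ = _ := by ring
  have hinj : ∀ w ∈ T, ∀ w' ∈ T, Fin.init w = Fin.init w' → w = w' := by
    intro w hw w' hw' he
    have h1 := (hTm w hw).2.2
    have h2 := (hTm w' hw').2.2
    rw [Fin.sum_univ_castSucc] at h1 h2
    have h3 : ∀ j : Fin n, w j.castSucc = w' j.castSucc := fun j => congrFun he j
    have h4 : ∑ i : Fin n, m i.castSucc * w i.castSucc = ∑ i : Fin n, m i.castSucc * w' i.castSucc :=
      sum_congr rfl fun i _ => by rw [h3 i]
    have h5 : m (Fin.last n) * w (Fin.last n) = m (Fin.last n) * w' (Fin.last n) := by omega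
    have h6 : w (Fin.last n) = w' (Fin.last n) := Nat.eq_of_mul_eq_mul_left (hm _) h5
    funext i
    refine Fin.lastCases h6 (fun j => h3 j) i
  calc ∑ w ∈ T, Phi (n + 1) b (fun j => if h : j < n + 1 then 1 + (w ⟨j, h⟩ : ℝ) * Real.log 2 else 1) (n + 1 - 1)
    _ ≤ ∑ w ∈ T, ((M : ℝ) ^ b) ^ n * P b r (Fin.init w) := sum_le_sum hpt
    _ = ((M : ℝ) ^ b) ^ n * ∑ w ∈ T, P b r (Fin.init w) := by rw [mul_sum]
    _ = ((M : ℝ) ^ b) ^ n * ∑ u ∈ T.image Fin.init, P b r u := by
        rw [sum_image hinj]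
    _ ≤ ((M : ℝ) ^ b) ^ n * ∑ u ∈ A n r, P b r u := by
        refine mul_le_mul_of_nonneg_left ?_ (by positivity)
        refine sum_le_sum_of_subset_of_nonneg ?_ fun _ _ _ => P_nonneg _ _ _
        intro u hu
        obtain ⟨w, hw, rfl⟩ := mem_image.1 hu
        obtain ⟨h1, h2, -⟩ := hTm w hw
        exact mem_A.2 ⟨fun i => h1 _, mono_init h2⟩
    _ ≤ ((M : ℝ) ^ b) ^ n * C ^ n :=
        mul_le_mul_of_nonneg_left (sum_A b C hC hg n r) (by positivity)

end Pool.Agent.Q24.ESM.SM
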